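import Pool.Agent.H23.BO.Homog

/-!
# The determinant of `q + P` does not vanish (`P` the Pascal matrix)
-/

namespace Pool.Agent.H90.TA

open Matrix Pool.Agent.H23.BO

open scoped ComplexOrder

theorem pascal_eq (L : ℕ) : pascal L =
    (of fun i j : Fin L => (((i : ℕ).choose j : ℕ) : ℂ)) *
      (of fun i j : Fin L => (((i : ℕ).choose j : ℕ) : ℂ))ᴴ := by
  ext i j
  simp only [pascal, of_apply, mul_apply, conjTranspose_apply]
  rw [Nat.choose_symm_add, Nat.add_choose_eq]
  have h : ∀ k : Fin L, (((i : ℕ).choose k : ℕ) : ℂ) * star ((((j : ℕ).choose k : ℕ) : ℂ)) =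
      (((i : ℕ).choose k * (j : ℕ).choose k : ℕ) : ℂ) := by
    intro k
    rw [Complex.star_def, Complex.conj_natCast, Nat.cast_mul]
  simp only [h]
  rw [Fin.sum_univ_eq_sum_range (fun k => (((i : ℕ).choose k * (j : ℕ).choose k : ℕ) : ℂ)) L,
    ← Nat.cast_sum]
  congr 1
  rw [Finset.Nat.sum_antidiagonal_eq_sum_range_succ_mk]
  have h1 : ∀ k ∈ Finset.range ((j : ℕ) + 1),
      (i : ℕ).choose k * (j : ℕ).choose ((j : ℕ) - k) = (i : ℕ).choose k * (j : ℕ).choose k := by
    intro k hk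
    rw [Nat.choose_symm (by simpa [Nat.lt_succ_iff] using hk)]
  rw [Finset.sum_congr rfl h1]
  apply Finset.sum_subset
  · intro k hk
    simp only [Finset.mem_range] at hk ⊢
    omega
  · intro k _ hk
    simp only [Finset.mem_range, not_lt] at hk
    rw [Nat.choose_eq_zero_of_lt (n := (j : ℕ)) (by omega), mul_zero]

theorem det_ne_zero (L : ℕ) (q : ℂ) (hq : q ^ 2 - q + 1 = 0) :
    (q • (1 : Matrix (Fin L) (Fin L) ℂ) + pascal L).det ≠ 0 := by
  intro h
  obtain ⟨v, hv, hv0⟩ := Matrix.exists_mulVec_eq_zero_iff.2 h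
  have h1 : 0 ≤ star v ⬝ᵥ (pascal L *ᵥ v) := by
    rw [pascal_eq]
    exact (posSemidef_self_mul_conjTranspose _).dotProduct_mulVec_nonneg v
  have h2 : pascal L *ᵥ v = -(q • v) := by
    rw [add_mulVec, smul_mulVec, one_mulVec] at hv0
    exact (neg_eq_of_add_eq_zero_right hv0).symm
  have h3 : 0 < star v ⬝ᵥ v := by
    rw [dotProduct_star_self_pos_iff]
    exact hv
  rw [h2, dotProduct_neg, dotProduct_smul, smul_eq_mul] at h1
  obtain ⟨r, hr⟩ : ∃ r : ℝ, star v ⬝ᵥ v = r := ⟨(star v ⬝ᵥ v).re, by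
    apply Complex.ext
    · simp
    · simpa using (Complex.lt_def.1 h3).2.symm⟩
  rw [hr] at h1 h3
  have hr0 : 0 < r := by simpa using h3
  have h4 := (Complex.le_def.1 h1)
  simp only [Complex.zero_re, Complex.neg_re, Complex.mul_re, Complex.ofReal_re,
    Complex.ofReal_im, mul_zero, sub_zero, Complex.zero_im, Complex.neg_im, Complex.mul_im,
    zero_add] at h4
  have h5 : q.im = 0 := by
    have := h4.2
    have h6 : q.im * r = 0 := by linarith
    exact (mul_eq_zero.1 h6).resolve_right hr0.ne'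
  have h7 : (q ^ 2 - q + 1).re = 0 := by rw [hq]; simp
  rw [sq] at h7
  simp only [Complex.add_re, Complex.sub_re, Complex.mul_re, h5, mul_zero, sub_zero,
    Complex.one_re] at h7
  nlinarith [sq_nonneg (q.re - 1 / 2)]

end Pool.Agent.H90.TA
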